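import Pool.Agent.Helper74.Apol.Special

set_option autoImplicit false

/-!
# The apolar algebra of a general hyperplane arrangement is not a complete intersection

`N = n + 1` variables, `d` linear forms `ℓ_j = ∑ i, L j i * X i`.
-/

namespace Pool.Agent.Results.MP_310f0a_ag.GenericNotCI

/-- The differential operator `p` kills the product of the `d` linear forms with the coefficients
`L` (the same condition as in the frozen statement). -/
def Kills {d N : ℕ} (L : Fin d → Fin N → ℂ) (p : MvPolynomial (Fin N) ℂ) : Prop :=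
  ∀ c : Fin N →₀ ℕ,
    ∑ a ∈ p.support, p.coeff a *
      (∏ j : Fin d, ∑ i : Fin N,
          MvPolynomial.C (L j i) * MvPolynomial.X i).coeff (a + c) *
      ∏ i : Fin N, (((a + c) i).descFactorial (a i) : ℂ) = 0

theorem result (N d : ℕ) (hN : 3 ≤ N) (hd : N ≤ d) :
    ∃ Δ : MvPolynomial (Fin d × Fin N) ℂ, Δ ≠ 0 ∧ ∀ L : Fin d → Fin N → ℂ,
      MvPolynomial.eval (fun x : Fin d × Fin N => L x.1 x.2) Δ ≠ 0 →
      (∀ p : MvPolynomial (Fin N) ℂ, Kills L p → p ≠ 0 → d < (N - 1) * p.totalDegree) ∧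
      ((N - 1) ^ 2 ≤ d → ¬ ∃ g : Fin N → MvPolynomial (Fin N) ℂ,
        ∀ p : MvPolynomial (Fin N) ℂ, p ∈ Ideal.span (Set.range g) ↔ Kills L p) := by
  obtain ⟨Δ, hΔ, h⟩ := Helper74.Apol.main hN hd
  refine ⟨Δ, hΔ, fun L hL => ?_⟩
  obtain ⟨h1, h2⟩ := h L hL
  have hK : ∀ p, Kills L p ↔ p ∈ Helper74.Apol.annI (Helper74.Apol.arr L) := fun p =>
    (Helper74.Apol.mem_annI_iff' (Helper74.Apol.arr L) p).symm
  refine ⟨fun p hp hp0 => h1 p ((hK p).mp hp) hp0, fun hd2 => ?_⟩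
  rintro ⟨g, hg⟩
  apply h2 hd2 g
  ext p
  rw [hg p, hK p]

end Pool.Agent.Results.MP_310f0a_ag.GenericNotCI
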