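import Pool.Agent.Helper41.Hk.Lower

set_option autoImplicit false

/-!
# A generic arrangement whose apolar ideal has initial degree exactly `n + 1`, `n` odd

`n + 1 = 2 * m` variables, `d` linear forms `ℓ_j = ∑ i, ζ ^ (j * i) * X i`, `ζ` a primitive `d`-th
root of unity.
-/

open MvPolynomial

namespace Pool.Agent.Results.MP_310f0a_ag.HankelSharp

/-- The differential operator `p` kills the product of the `d` linear forms with the coefficients
`L` (the same condition as in the frozen statement). -/
def Kills {d N : ℕ} (L : Fin d → Fin N → ℂ) (p : MvPolynomial (Fin N) ℂ) : Prop :=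
  ∀ c : Fin N →₀ ℕ,
    ∑ a ∈ p.support, p.coeff a *
      (∏ j : Fin d, ∑ i : Fin N,
          MvPolynomial.C (L j i) * MvPolynomial.X i).coeff (a + c) *
      ∏ i : Fin N, (((a + c) i).descFactorial (a i) : ℂ) = 0

/-- The coefficients of the forms. -/
def forms (m d : ℕ) (ζ : ℂ) : Fin d → Fin (2 * m) → ℂ := fun j i => ζ ^ (j.val * i.val)

/-- The Hankel determinant `det (X (i + j + e))`, `0 ≤ i, j < m`. -/
noncomputable def hankel (m e : ℕ) : MvPolynomial (Fin (2 * m)) ℂ :=
  Matrix.det (Matrix.of fun i j : Fin m =>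
    if h : i.val + j.val + e < 2 * m then X (⟨i.val + j.val + e, h⟩ : Fin (2 * m)) else 0)

lemma hankel_homog (m e : ℕ) : (hankel m e).IsHomogeneous m := by
  unfold hankel
  rw [Matrix.det_apply']
  refine IsHomogeneous.sum _ _ _ fun τ _ => ?_
  have h1 : (∏ i, (Matrix.of fun i j : Fin m => if h : i.val + j.val + e < 2 * m then
      (X (⟨i.val + j.val + e, h⟩ : Fin (2 * m)) : MvPolynomial (Fin (2 * m)) ℂ) else 0) (τ i) i
      ).IsHomogeneous (∑ _i : Fin m, 1) := by
    refine IsHomogeneous.prod _ _ _ fun i _ => ?_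
    simp only [Matrix.of_apply]
    split_ifs
    · exact isHomogeneous_X _ _
    · exact isHomogeneous_zero _ _ _
  rw [Finset.sum_const, Finset.card_univ, Fintype.card_fin, smul_eq_mul, mul_one] at h1
  have h2 : (((Equiv.Perm.sign τ : ℤ) : MvPolynomial (Fin (2 * m)) ℂ)).IsHomogeneous 0 := by
    have e1 : (((Equiv.Perm.sign τ : ℤ) : MvPolynomial (Fin (2 * m)) ℂ)) =
        C ((Equiv.Perm.sign τ : ℤ) : ℂ) := by simp
    rw [e1]
    exact isHomogeneous_C _ _
  have h3 := h2.mul h1
  rwa [zero_add] at h3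

lemma hankel_ne_zero (m e : ℕ) (he : e ≤ 1) : hankel m e ≠ 0 := by
  rcases Nat.eq_zero_or_pos m with rfl | hm
  · unfold hankel
    rw [Matrix.det_isEmpty]
    exact one_ne_zero
  intro h
  have h1 := congrArg (eval (fun i : Fin (2 * m) => if i.val + 1 = m + e then (1 : ℂ) else 0)) h
  unfold hankel at h1
  rw [map_zero, RingHom.map_det] at h1
  have h2 : (RingHom.mapMatrix (eval (fun i : Fin (2 * m) => if i.val + 1 = m + e then (1 : ℂ) else 0))
      (Matrix.of fun i j : Fin m => if h : i.val + j.val + e < 2 * m then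
      (X (⟨i.val + j.val + e, h⟩ : Fin (2 * m)) : MvPolynomial (Fin (2 * m)) ℂ) else 0)) =
      (1 : Matrix (Fin m) (Fin m) ℂ).submatrix id Fin.revPerm := by
    ext i j
    have b0 := i.isLt
    have b1 := j.isLt
    rw [RingHom.mapMatrix_apply, Matrix.map_apply, Matrix.of_apply, Matrix.submatrix_apply, id,
      Matrix.one_apply, dif_pos (by omega), eval_X]
    simp only [Fin.revPerm_apply, Fin.ext_iff, Fin.val_rev]
    by_cases hij : i.val = m - (j.val + 1)
    · rw [if_pos hij, if_pos (by omega)]
    · rw [if_neg hij, if_neg (by omega)]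
  rw [h2, Matrix.det_permute', Matrix.det_one, mul_one] at h1
  rcases Int.units_eq_one_or (Equiv.Perm.sign (Fin.revPerm (n := m))) with h3 | h3
  · rw [h3] at h1
    simp at h1
  · rw [h3] at h1
    simp at h1

open Helper41.Hk

theorem result (m d : ℕ) (hm : 1 ≤ m) (hd : 1 ≤ d) (ζ : ℂ) (hζ : IsPrimitiveRoot ζ d) :
    (∀ s : Fin (2 * m) → Fin d, Function.Injective s →
      LinearIndependent ℂ (fun k : Fin (2 * m) => forms m d ζ (s k))) ∧
    (hankel m 0 * hankel m 1 ≠ 0 ∧ (hankel m 0 * hankel m 1).IsHomogeneous (2 * m) ∧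
      Kills (forms m d ζ) (hankel m 0 * hankel m 1)) ∧
    (4 * m ≤ d + 2 → ∀ p : MvPolynomial (Fin (2 * m)) ℂ, Kills (forms m d ζ) p → p ≠ 0 →
      2 * m ≤ p.totalDegree) := by
  have hK : ∀ p, Kills (forms m d ζ) p ↔ ap p (Helper74.Apol.arr (forms m d ζ)) = 0 := fun p =>
    ((ap_iff (Helper74.Apol.arr (forms m d ζ)) p).symm.trans
      (Helper74.Apol.mem_annI_iff' (Helper74.Apol.arr (forms m d ζ)) p)).symm
  have hinj : ∀ a b, a < d → b < d → ζ ^ a = ζ ^ b → a = b := fun a b ha hb h =>
    hζ.pow_inj ha hb h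
  have h0 : 0 < 2 * m := by omega
  refine ⟨fun s hs => ?_, ⟨?_, ?_, ?_⟩, ?_⟩
  · have h1 : (fun k : Fin (2 * m) => forms m d ζ (s k)) =
        (Matrix.vandermonde (fun k : Fin (2 * m) => ζ ^ (s k).val)).row := by
      funext k i
      rw [Matrix.row, Matrix.vandermonde_apply, forms, pow_mul]
    have h2 : (Matrix.vandermonde (fun k : Fin (2 * m) => ζ ^ (s k).val)).det ≠ 0 := by
      rw [Matrix.det_vandermonde_ne_zero_iff]
      intro a b hab
      exact hs (Fin.ext (hinj _ _ (s a).isLt (s b).isLt hab))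
    rw [h1]
    exact Matrix.linearIndependent_rows_of_det_ne_zero h2
  · exact mul_ne_zero (hankel_ne_zero m 0 (by omega)) (hankel_ne_zero m 1 le_rfl)
  · have := (hankel_homog m 0).mul (hankel_homog m 1)
    rwa [← two_mul] at this
  · rw [hK]
    set y : ℕ → Fin (2 * m) := fun a => if h : a < 2 * m then ⟨a, h⟩ else ⟨0, h0⟩ with hy
    have hyv : ∀ a (h : a < 2 * m), y a = ⟨a, h⟩ := fun a h => dif_pos h
    have h1 := kills y (2 * m - 1) (fun i j hi hj h => by
      rw [hyv i (by omega), hyv j (by omega)] at h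
      exact Fin.mk.inj_iff.mp h) m hm rfl d hd ζ hζ
    have e1 : hk y m = hankel m 0 := by
      unfold hk hankel
      congr 1
      ext1 i j
      have b0 := i.isLt
      have b1 := j.isLt
      rw [Matrix.of_apply, Matrix.of_apply, dif_pos (by omega), hyv _ (by omega)]
      rfl
    have e2 : hk (fun a => y (2 * m - 1 - a)) m = hankel m 1 := by
      unfold hk hankel
      rw [← Matrix.det_submatrix_equiv_self Fin.revPerm]
      congr 1
      ext1 i j
      have b0 := i.isLt
      have b1 := j.isLt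
      have b2 : (Fin.revPerm i).val = m - (i.val + 1) := by rw [Fin.revPerm_apply, Fin.val_rev]
      have b3 : (Fin.revPerm j).val = m - (j.val + 1) := by rw [Fin.revPerm_apply, Fin.val_rev]
      rw [Matrix.submatrix_apply, Matrix.of_apply, Matrix.of_apply, dif_pos (by omega)]
      change X (y (2 * m - 1 - ((Fin.revPerm i).val + (Fin.revPerm j).val))) = _
      rw [hyv _ (by omega)]
      congr 2
      omega
    have e3 : (∏ k ∈ Finset.range d, ∑ i ∈ Finset.range (2 * m - 1 + 1),
        C ((ζ ^ k) ^ i) * X (y i) : MvPolynomial (Fin (2 * m)) ℂ) =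
        Helper74.Apol.arr (forms m d ζ) := by
      unfold Helper74.Apol.arr
      rw [Finset.prod_range]
      refine Finset.prod_congr rfl fun k _ => ?_
      have : 2 * m - 1 + 1 = 2 * m := by omega
      rw [this, Finset.sum_range]
      refine Finset.sum_congr rfl fun i _ => ?_
      rw [hyv _ i.isLt, forms, pow_mul]
    rw [← e1, ← e2, ← e3]
    exact h1
  · intro h4 p hp hp0
    by_contra hlt
    apply hp0
    rw [← sum_homogeneousComponent p]
    refine Finset.sum_eq_zero fun k hk => ?_
    rw [Finset.mem_range] at hk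
    have h5 := (Helper74.Apol.mem_annI_iff' (Helper74.Apol.arr (forms m d ζ)) p).mpr hp
    have h6 := Helper74.Apol.annI_component (Helper74.Apol.arr_homog (forms m d ζ)) h5 k
    rw [ap_iff] at h6
    have e3 : Helper74.Apol.arr (forms m d ζ) =
        PR (2 * m) ((Finset.univ : Finset (Fin d)).image (fun j => ζ ^ j.val)) := by
      unfold Helper74.Apol.arr PR
      rw [Finset.prod_image]
      · refine Finset.prod_congr rfl fun j _ => ?_
        unfold lf pt
        refine Finset.sum_congr rfl fun i _ => ?_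
        rw [forms, pow_mul]
      · intro a _ b _ hab
        exact Fin.ext (hinj _ _ a.isLt b.isLt hab)
    rw [e3] at h6
    refine lower _ _ k (by omega) ?_ (homogeneousComponent_isHomogeneous k p) h6
    rw [Finset.card_image_of_injective _ (fun a b hab => Fin.ext (hinj _ _ a.isLt b.isLt hab)),
      Finset.card_univ, Fintype.card_fin]
    omega

end Pool.Agent.Results.MP_310f0a_ag.HankelSharp
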