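import Pool.Agent.Helper73.Six.Six

set_option autoImplicit false

/-!
# At most six lines in general position in the plane

The apolar algebra of a generic arrangement of `d ≤ 6` lines, `d ≥ 4`, is not a complete
intersection.
-/

namespace Pool.Agent.Results.MP_310f0a_ag.SixLines

theorem result (d : ℕ) (hd : 3 < d) (hd6 : d ≤ 6) (L : Fin d → Fin 3 → ℂ)
    (hL : ∀ s : Fin 3 → Fin d, Function.Injective s →
      LinearIndependent ℂ (fun k : Fin 3 => L (s k))) :
    ¬ ∃ g : Fin 3 → MvPolynomial (Fin 3) ℂ, ∀ p : MvPolynomial (Fin 3) ℂ,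
        p ∈ Ideal.span (Set.range g) ↔
          ∀ c : Fin 3 →₀ ℕ,
            ∑ a ∈ p.support, p.coeff a *
              (∏ j : Fin d, ∑ i : Fin 3,
                  MvPolynomial.C (L j i) * MvPolynomial.X i).coeff (a + c) *
              ∏ i : Fin 3, (((a + c) i).descFactorial (a i) : ℂ) = 0 := by
  rintro ⟨g, hg⟩
  have hI : Helper74.Apol.annI (Helper74.Apol.arr L) = Ideal.span (Set.range g) := by
    ext p
    rw [hg p]
    exact Helper74.Apol.mem_annI_iff' (Helper74.Apol.arr L) p
  have hF := Helper74.Apol.arr_homog L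
  by_cases h6 : d = 6
  · subst h6
    exact Helper73.Six.no_six hL g hI
  · exact Helper74.Apol.not_ci (Helper74.Apol.annI (Helper74.Apol.arr L)) 2 d
      (fun p hp j => Helper74.Apol.annI_component hF hp j)
      (fun p hp j hj hpj => Helper73.Six.no_low hL hd hp hpj hj)
      (fun p j hj hpj => Helper74.Apol.annI_large hF hpj hj) (by omega) g hI

end Pool.Agent.Results.MP_310f0a_ag.SixLines
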