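import Pool.Agent.Helper73.Six.Two
import Pool.Agent.Helper41.Hk.Socle

set_option autoImplicit false

/-!
# Eight or more lines in general position in the plane with two apolar cubics

If a product of `d ≥ 8` linear forms in general position has two linearly independent apolar
cubics, then its apolar algebra is not a complete intersection.
-/

namespace Pool.Agent.Results.MP_310f0a_ag.TwoCubics

/-- The operator `p(∂)` annihilates the product of the linear forms `∑ i, L j i * X i`. -/
def Kills {d : ℕ} (L : Fin d → Fin 3 → ℂ) (p : MvPolynomial (Fin 3) ℂ) : Prop :=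
  ∀ c : Fin 3 →₀ ℕ,
    ∑ a ∈ p.support, p.coeff a *
      (∏ j : Fin d, ∑ i : Fin 3,
          MvPolynomial.C (L j i) * MvPolynomial.X i).coeff (a + c) *
      ∏ i : Fin 3, (((a + c) i).descFactorial (a i) : ℂ) = 0

theorem result (d : ℕ) (hd : 7 < d) (L : Fin d → Fin 3 → ℂ)
    (hL : ∀ s : Fin 3 → Fin d, Function.Injective s →
      LinearIndependent ℂ (fun k : Fin 3 => L (s k)))
    (u v : MvPolynomial (Fin 3) ℂ) (hu3 : u.IsHomogeneous 3) (hv3 : v.IsHomogeneous 3)
    (huv : LinearIndependent ℂ ![u, v]) (hu : Kills L u) (hv : Kills L v) :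
    ¬ ∃ g : Fin 3 → MvPolynomial (Fin 3) ℂ, ∀ p : MvPolynomial (Fin 3) ℂ,
        p ∈ Ideal.span (Set.range g) ↔ Kills L p := by
  rintro ⟨g, hg⟩
  have hmem : ∀ p, p ∈ Helper74.Apol.annI (Helper74.Apol.arr L) ↔ Kills L p := fun p =>
    (Helper74.Apol.mem_annI_iff' (Helper74.Apol.arr L) p)
  have hI : Helper74.Apol.annI (Helper74.Apol.arr L) = Ideal.span (Set.range g) := by
    ext p
    rw [hg p]
    exact hmem p
  exact Helper73.Six.two_cubics Helper41.Hk.socle_degree hL hd g hI ((hmem u).mpr hu)
    ((hmem v).mpr hv) hu3 hv3 huv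

end Pool.Agent.Results.MP_310f0a_ag.TwoCubics
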